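import Pool.Agent.H705.GB.Stm

/-! # Project GB (helper705), package JMP (helper457) -/

set_option autoImplicit false

namespace Pool.Agent.H457.GB

open Pool.Agent.H705.GB
open Pool.Agent.H705.TR (PrimeIn)

/-- a time with prescribed residues -/
theorem exists_time (n p r s : ℕ) (hp : p.Prime) (h2 : p ≠ 2) :
    ∃ m, n ≤ m ∧ m < n + 2 * p ∧ m % 2 = r % 2 ∧ m ≡ s [MOD p] := by
  have hc : Nat.Coprime 2 p := by
    rw [Nat.coprime_primes Nat.prime_two hp]
    exact fun h => h2 h.symm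
  obtain ⟨k, hk1, hk2⟩ := Nat.chineseRemainder hc r s
  have hp1 := hp.pos
  obtain ⟨t, ht⟩ : ∃ t, t + n = k + 2 * p * n := by
    refine ⟨k + 2 * p * n - n, ?_⟩
    have : n ≤ 2 * p * n := Nat.le_mul_of_pos_left n (by omega)
    omega
  refine ⟨n + t % (2 * p), by omega, ?_, ?_, ?_⟩
  · have := Nat.mod_lt t (by omega : 0 < 2 * p)
    omega
  · have h1 : n + t % (2 * p) ≡ k + 2 * p * n [MOD 2] := by
      rw [← ht, add_comm t n]
      apply Nat.ModEq.add_left
      exact (Nat.mod_modEq t (2 * p)).of_mul_right p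
    have h2 : k + 2 * p * n ≡ k [MOD 2] := by
      have : 2 * p * n = 2 * (p * n) := by ring
      rw [this]
      exact (Nat.modEq_zero_iff_dvd.2 (dvd_mul_right 2 _)).add_left k |>.trans (by rw [add_zero])
    exact (h1.trans h2).trans hk1
  · have h1 : n + t % (2 * p) ≡ k + 2 * p * n [MOD p] := by
      rw [← ht, add_comm t n]
      apply Nat.ModEq.add_left
      exact (Nat.mod_modEq t (2 * p)).of_mul_left 2
    have h2 : k + 2 * p * n ≡ k [MOD p] := by
      have : 2 * p * n = p * (2 * n) := by ring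
      rw [this]
      exact (Nat.modEq_zero_iff_dvd.2 (dvd_mul_right p _)).add_left k |>.trans (by rw [add_zero])
    exact (h1.trans h2).trans hk2

theorem G_even {N c m y y' : ℕ} (h : m % 2 = 0) (hP : ¬ PrimeIn c y) :
    G N c m y y' = Nat.gcd y m := by
  unfold G
  rw [if_pos h, if_neg hP]

theorem G_odd {N c m y y' : ℕ} (h : m % 2 = 1) (hP : ¬ PrimeIn (2 * N - c) y') :
    G N c m y y' = Nat.gcd y' (m + 2 * (N - c)) := by
  unfold G
  rw [if_neg (by omega), if_neg hP]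

theorem jump_exists (N c y y' n p : ℕ) (hp : p.Prime) (h2 : p ≠ 2)
    (h : p ^ 2 ≤ c ∧ p ∣ y ∨ p ^ 2 ≤ 2 * N - c ∧ p ∣ y') :
    ∃ m, n ≤ m ∧ m < n + 2 * p ∧ G N c m y y' ≠ 1 := by
  rcases h with ⟨h3, h4⟩ | ⟨h3, h4⟩
  · obtain ⟨m, h5, h6, h7, h8⟩ := exists_time n p 0 0 hp h2
    refine ⟨m, h5, h6, fun h9 => ?_⟩
    rw [G_even (by omega) (fun h10 => h10 p hp h3 h4)] at h9
    have h11 : p ∣ Nat.gcd y m := Nat.dvd_gcd h4 (Nat.modEq_zero_iff_dvd.1 h8)
    rw [h9] at h11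
    exact hp.one_lt.ne' (Nat.dvd_one.1 h11)
  · obtain ⟨m, h5, h6, h7, h8⟩ := exists_time n p 1 (p * (2 * (N - c)) - 2 * (N - c)) hp h2
    refine ⟨m, h5, h6, fun h9 => ?_⟩
    rw [G_odd (by omega) (fun h10 => h10 p hp h3 h4)] at h9
    have h12 : m + 2 * (N - c) ≡ (p * (2 * (N - c)) - 2 * (N - c)) + 2 * (N - c) [MOD p] :=
      h8.add_right _
    have h13 : p * (2 * (N - c)) - 2 * (N - c) + 2 * (N - c) = p * (2 * (N - c)) := by
      have : 2 * (N - c) ≤ p * (2 * (N - c)) := Nat.le_mul_of_pos_left _ hp.pos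
      omega
    rw [h13] at h12
    have h14 : p ∣ m + 2 * (N - c) :=
      Nat.modEq_zero_iff_dvd.1 (h12.trans (Nat.modEq_zero_iff_dvd.2 (dvd_mul_right p _)))
    have h11 : p ∣ Nat.gcd y' (m + 2 * (N - c)) := Nat.dvd_gcd h4 h14
    rw [h9] at h11
    exact hp.one_lt.ne' (Nat.dvd_one.1 h11)

theorem T_JMP : P_JMP := by
  intro N c y y' n p hn hp h2 h
  obtain ⟨m0, h1, h3, hG0⟩ := jump_exists N c y y' n p hp h2 h
  have hne : {m : ℕ | n ≤ m ∧ G N c m y y' ≠ 1}.Nonempty := ⟨m0, h1, hG0⟩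
  have hmem : n ≤ jm N n c y y' ∧ G N c (jm N n c y y') y y' ≠ 1 := by
    unfold jm
    exact Nat.sInf_mem hne
  have hle : jm N n c y y' ≤ m0 := by
    unfold jm
    exact Nat.sInf_le ⟨h1, hG0⟩
  obtain ⟨h6, h7⟩ := hmem
  have hno : ∀ i, n ≤ i → i < jm N n c y y' → G N c i y y' = 1 := by
    intro i hi hij
    by_contra hcon
    have : jm N n c y y' ≤ i := by
      unfold jm
      exact Nat.sInf_le ⟨hi, hcon⟩
    omega
  have hpos : 0 < jm N n c y y' := by omega
  unfold jp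
  rcases Nat.mod_two_eq_zero_or_one (jm N n c y y') with he | ho
  · have hPr : ¬ PrimeIn c y := by
      intro h8
      apply h7
      unfold G
      rw [if_pos he, if_pos h8]
    have hGe := G_even (N := N) (y' := y') he hPr
    refine ⟨h6, by omega, hno, ?_, Or.inl ⟨he, ?_, ?_⟩⟩
    · have h8 : 1 ≤ G N c (jm N n c y y') y y' := by
        rw [hGe]
        exact Nat.gcd_pos_of_pos_right _ hpos
      omega
    · rw [hGe]
      exact Nat.gcd_dvd_left _ _
    · rw [hGe]
      exact Nat.gcd_le_right _ hpos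
  · have hPr : ¬ PrimeIn (2 * N - c) y' := by
      intro h8
      apply h7
      unfold G
      rw [if_neg (by omega), if_pos h8]
    have hGe := G_odd (y := y) ho hPr
    refine ⟨h6, by omega, hno, ?_, Or.inr ⟨ho, ?_, ?_⟩⟩
    · have h8 : 1 ≤ G N c (jm N n c y y') y y' := by
        rw [hGe]
        exact Nat.gcd_pos_of_pos_right _ (by omega)
      omega
    · rw [hGe]
      exact Nat.gcd_dvd_left _ _
    · rw [hGe]
      exact Nat.gcd_dvd_right _ _

end Pool.Agent.H457.GB
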